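import Pool.Agent.Lib.QG753.Transfer

/-!
# MP_753acd_an, Q1: full answer (the equivalence is true)

The quantum group enters through the multiplicative unitary `V` of its dual and the universal
C*-algebra `C₀ᵘ(G)`; see `Pool/Agent/Lib/QG753/Stmt.lean` for the definitions.
-/

open QG

/-- `G` is amenable and its dual does not have property (T) if and only if there is a
`w*`-continuous convolution semigroup of states on `G` that is not norm continuous and is
asymptotically left invariant. -/
theorem Pool.Agent.Results.MP_753acd_an.AmenableNonT.result
    (H : Type) [NormedAddCommGroup H] [InnerProductSpace ℂ H] [CompleteSpace H]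
    [TopologicalSpace.SeparableSpace H] (W : MultUnitary H)
    (A : Type) [NonUnitalCStarAlgebra A] (C : UniversalAlgebra W A) :
    (Amenable W ∧ ¬ DualPropertyT W) ↔
      ∃ μ : NNReal → (A →L[ℂ] ℂ), GoodSemigroup C μ :=
  QG753T.main C
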